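import Mathlib

set_option autoImplicit false

/-! Circuits over sets of naturals: compiling expressions (module for MP_d0b6c3_lc). -/

namespace Pool.Agent.helper72.MC

/-- expressions over sets of naturals with one number parameter -/
inductive Ex
  | lit (k : ℕ)
  | par
  | un (a b : Ex)
  | it (a b : Ex)
  | co (a : Ex)
  | ad (a b : Ex)
  | mu (a b : Ex)

/-- value; `par` is the singleton of the parameter `v` -/
def Ex.val (v : ℕ) : Ex → Set ℕ
  | .lit k => {k}
  | .par => {v}
  | .un a b => a.val v ∪ b.val v
  | .it a b => a.val v ∩ b.val v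
  | .co a => (a.val v)ᶜ
  | .ad a b => {n | ∃ x ∈ a.val v, ∃ y ∈ b.val v, n = x + y}
  | .mu a b => {n | ∃ x ∈ a.val v, ∃ y ∈ b.val v, n = x * y}

namespace Ex

/-- number of gates -/
def size : Ex → ℕ
  | lit _ => 1
  | par => 1
  | un a b => a.size + b.size + 1
  | it a b => a.size + b.size + 1
  | co a => a.size + 1
  | ad a b => a.size + b.size + 1
  | mu a b => a.size + b.size + 1

lemma size_pos (e : Ex) : 0 < e.size := by cases e <;> simp [size]

/-- gates at positions `k, k+1, ...` -/
def compile : Ex → ℕ → ℕ → List (ℕ × ℕ × ℕ)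
  | lit c, _, _ => [(0, c, 0)]
  | par, _, v => [(0, v, 0)]
  | un a b, k, v => a.compile k v ++ b.compile (k + a.size) v ++
      [(1, k + a.size - 1, k + a.size + b.size - 1)]
  | it a b, k, v => a.compile k v ++ b.compile (k + a.size) v ++
      [(2, k + a.size - 1, k + a.size + b.size - 1)]
  | co a, k, v => a.compile k v ++ [(3, k + a.size - 1, 0)]
  | ad a b, k, v => a.compile k v ++ b.compile (k + a.size) v ++
      [(4, k + a.size - 1, k + a.size + b.size - 1)]
  | mu a b, k, v => a.compile k v ++ b.compile (k + a.size) v ++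
      [(5, k + a.size - 1, k + a.size + b.size - 1)]

lemma length_compile (e : Ex) (k v : ℕ) : (e.compile k v).length = e.size := by
  induction e generalizing k with
  | lit c => rfl
  | par => rfl
  | un a b iha ihb => simp [compile, size, iha, ihb]; omega
  | it a b iha ihb => simp [compile, size, iha, ihb]; omega
  | co a iha => simp [compile, size, iha]
  | ad a b iha ihb => simp [compile, size, iha, ihb]; omega
  | mu a b iha ihb => simp [compile, size, iha, ihb]; omega

end Ex

/-- the constraint of a gate at position `i` -/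
def Gate (f : ℕ → Set ℕ) (i : ℕ) (g : ℕ × ℕ × ℕ) : Prop :=
  (g.1 = 0 ∧ f i = {g.2.1}) ∨
  (g.1 = 1 ∧ g.2.1 < i ∧ g.2.2 < i ∧ f i = f g.2.1 ∪ f g.2.2) ∨
  (g.1 = 2 ∧ g.2.1 < i ∧ g.2.2 < i ∧ f i = f g.2.1 ∩ f g.2.2) ∨
  (g.1 = 3 ∧ g.2.1 < i ∧ f i = (f g.2.1)ᶜ) ∨
  (g.1 = 4 ∧ g.2.1 < i ∧ g.2.2 < i ∧
    f i = {n : ℕ | ∃ x ∈ f g.2.1, ∃ y ∈ f g.2.2, n = x + y}) ∨
  (g.1 = 5 ∧ g.2.1 < i ∧ g.2.2 < i ∧
    f i = {n : ℕ | ∃ x ∈ f g.2.1, ∃ y ∈ f g.2.2, n = x * y})

/-- all constraints of a list of gates at positions `k, k+1, ...` -/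
def Sat (f : ℕ → Set ℕ) (k : ℕ) (L : List (ℕ × ℕ × ℕ)) : Prop :=
  ∀ i g, L[i]? = some g → Gate f (k + i) g

lemma Sat_append (f : ℕ → Set ℕ) (k : ℕ) (L M : List (ℕ × ℕ × ℕ)) :
    Sat f k (L ++ M) ↔ Sat f k L ∧ Sat f (k + L.length) M := by
  constructor
  · intro h
    refine ⟨fun i g hi => ?_, fun i g hi => ?_⟩
    · have hlt : i < L.length := by
        by_contra hc
        rw [List.getElem?_eq_none (by omega)] at hi
        simp at hi
      exact h i g (by rw [List.getElem?_append_left hlt]; exact hi)
    · have := h (L.length + i) g (by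
        rw [List.getElem?_append_right (by omega)]; simpa using hi)
      rwa [← add_assoc] at this
  · rintro ⟨h1, h2⟩ i g hi
    by_cases hlt : i < L.length
    · rw [List.getElem?_append_left hlt] at hi
      exact h1 i g hi
    · rw [List.getElem?_append_right (by omega)] at hi
      have := h2 _ g hi
      rwa [show k + L.length + (i - L.length) = k + i by omega] at this

lemma Sat_singleton (f : ℕ → Set ℕ) (k : ℕ) (g : ℕ × ℕ × ℕ) : Sat f k [g] ↔ Gate f k g := by
  constructor
  · intro h
    exact h 0 g rfl
  · intro h i g' hi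
    cases i with
    | zero => simp at hi; subst hi; exact h
    | succ i => simp at hi

namespace Ex

/-- soundness -/
lemma sound (f : ℕ → Set ℕ) (v : ℕ) (e : Ex) : ∀ k, Sat f k (e.compile k v) →
    f (k + e.size - 1) = e.val v := by
  induction e with
  | lit c =>
    intro k h
    rw [compile, Sat_singleton] at h
    simpa [Gate, val, size] using h
  | par =>
    intro k h
    rw [compile, Sat_singleton] at h
    simpa [Gate, val, size] using h
  | un a b iha ihb =>
    intro k h
    rw [compile, Sat_append, Sat_append, Sat_singleton, List.length_append, length_compile,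
      length_compile] at h
    obtain ⟨⟨h1, h2⟩, h3⟩ := h
    have e1 := iha k h1
    have e2 := ihb _ h2
    rcases h3 with h3 | h3 | h3 | h3 | h3 | h3 <;> simp at h3
    obtain ⟨-, -, h3⟩ := h3
    rw [e1, e2] at h3
    rw [size, val, show k + (a.size + b.size + 1) - 1 = k + (a.size + b.size) by omega]
    exact h3
  | it a b iha ihb =>
    intro k h
    rw [compile, Sat_append, Sat_append, Sat_singleton, List.length_append, length_compile,
      length_compile] at h
    obtain ⟨⟨h1, h2⟩, h3⟩ := h
    have e1 := iha k h1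
    have e2 := ihb _ h2
    rcases h3 with h3 | h3 | h3 | h3 | h3 | h3 <;> simp at h3
    obtain ⟨-, -, h3⟩ := h3
    rw [e1, e2] at h3
    rw [size, val, show k + (a.size + b.size + 1) - 1 = k + (a.size + b.size) by omega]
    exact h3
  | co a iha =>
    intro k h
    rw [compile, Sat_append, Sat_singleton, length_compile] at h
    obtain ⟨h1, h3⟩ := h
    have e1 := iha k h1
    rcases h3 with h3 | h3 | h3 | h3 | h3 | h3 <;> simp at h3
    obtain ⟨-, h3⟩ := h3
    rw [e1] at h3
    rw [size, val, show k + (a.size + 1) - 1 = k + a.size by omega]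
    exact h3
  | ad a b iha ihb =>
    intro k h
    rw [compile, Sat_append, Sat_append, Sat_singleton, List.length_append, length_compile,
      length_compile] at h
    obtain ⟨⟨h1, h2⟩, h3⟩ := h
    have e1 := iha k h1
    have e2 := ihb _ h2
    obtain ⟨-, -, -, h3⟩ : _ ∧ _ ∧ _ ∧ _ := by
      rcases h3 with ⟨h, -⟩ | ⟨h, -⟩ | ⟨h, -⟩ | ⟨h, -⟩ | h3 | ⟨h, -⟩
      · exact absurd h (by norm_num)
      · exact absurd h (by norm_num)
      · exact absurd h (by norm_num)
      · exact absurd h (by norm_num)
      · exact h3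
      · exact absurd h (by norm_num)
    rw [e1, e2] at h3
    rw [size, val, show k + (a.size + b.size + 1) - 1 = k + (a.size + b.size) by omega]
    exact h3
  | mu a b iha ihb =>
    intro k h
    rw [compile, Sat_append, Sat_append, Sat_singleton, List.length_append, length_compile,
      length_compile] at h
    obtain ⟨⟨h1, h2⟩, h3⟩ := h
    have e1 := iha k h1
    have e2 := ihb _ h2
    obtain ⟨-, -, -, h3⟩ : _ ∧ _ ∧ _ ∧ _ := by
      rcases h3 with ⟨h, -⟩ | ⟨h, -⟩ | ⟨h, -⟩ | ⟨h, -⟩ | ⟨h, -⟩ | h3
      · exact absurd h (by norm_num)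
      · exact absurd h (by norm_num)
      · exact absurd h (by norm_num)
      · exact absurd h (by norm_num)
      · exact absurd h (by norm_num)
      · exact h3
    rw [e1, e2] at h3
    rw [size, val, show k + (a.size + b.size + 1) - 1 = k + (a.size + b.size) by omega]
    exact h3

/-- values of all gates -/
def vals (v : ℕ) : Ex → List (Set ℕ)
  | lit c => [{c}]
  | par => [{v}]
  | un a b => a.vals v ++ b.vals v ++ [(un a b).val v]
  | it a b => a.vals v ++ b.vals v ++ [(it a b).val v]
  | co a => a.vals v ++ [(co a).val v]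
  | ad a b => a.vals v ++ b.vals v ++ [(ad a b).val v]
  | mu a b => a.vals v ++ b.vals v ++ [(mu a b).val v]

lemma length_vals (v : ℕ) (e : Ex) : (e.vals v).length = e.size := by
  induction e with
  | lit c => rfl
  | par => rfl
  | un a b iha ihb => simp [vals, size, iha, ihb]; omega
  | it a b iha ihb => simp [vals, size, iha, ihb]; omega
  | co a iha => simp [vals, size, iha]
  | ad a b iha ihb => simp [vals, size, iha, ihb]; omega
  | mu a b iha ihb => simp [vals, size, iha, ihb]; omega

lemma vals_last (v : ℕ) (e : Ex) : (e.vals v)[e.size - 1]? = some (e.val v) := by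
  cases e with
  | lit c => rfl
  | par => rfl
  | un a b => simp [vals, size, length_vals]
  | it a b => simp [vals, size, length_vals]
  | co a => simp [vals, size, length_vals]
  | ad a b => simp [vals, size, length_vals]
  | mu a b => simp [vals, size, length_vals]

/-- `f` agrees with the list from position `k` on -/
def Agree (f : ℕ → Set ℕ) (k : ℕ) (L : List (Set ℕ)) : Prop := ∀ i s, L[i]? = some s → f (k + i) = s

lemma Agree_append (f : ℕ → Set ℕ) (k : ℕ) (L M : List (Set ℕ)) (h : Agree f k (L ++ M)) :
    Agree f k L ∧ Agree f (k + L.length) M := by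
  refine ⟨fun i g hi => ?_, fun i g hi => ?_⟩
  · have hlt : i < L.length := by
      by_contra hc
      rw [List.getElem?_eq_none (by omega)] at hi
      simp at hi
    exact h i g (by rw [List.getElem?_append_left hlt]; exact hi)
  · have := h (L.length + i) g (by
      rw [List.getElem?_append_right (by omega)]; simpa using hi)
    rwa [← add_assoc] at this

lemma Agree_last (f : ℕ → Set ℕ) (k v : ℕ) (e : Ex) (h : Agree f k (e.vals v)) :
    f (k + e.size - 1) = e.val v := by
  have := h _ _ (vals_last v e)
  rwa [← Nat.add_sub_assoc (size_pos e)] at this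

lemma sat_of_agree (f : ℕ → Set ℕ) (v : ℕ) (e : Ex) : ∀ k, Agree f k (e.vals v) →
    Sat f k (e.compile k v) := by
  induction e with
  | lit c =>
    intro k h
    rw [compile, Sat_singleton]
    left
    exact ⟨rfl, h 0 _ rfl⟩
  | par =>
    intro k h
    rw [compile, Sat_singleton]
    left
    exact ⟨rfl, h 0 _ rfl⟩
  | un a b iha ihb =>
    intro k h
    rw [vals] at h
    obtain ⟨h12, h3⟩ := Agree_append _ _ _ _ h
    obtain ⟨h1, h2⟩ := Agree_append _ _ _ _ h12
    rw [List.length_append, length_vals, length_vals] at h3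
    rw [length_vals] at h2
    have e1 := Agree_last f _ v a h1
    have e2 := Agree_last f _ v b h2
    have e3 := h3 0 _ rfl
    have pa := size_pos a
    have pb := size_pos b
    rw [compile, Sat_append, Sat_append, Sat_singleton, List.length_append, length_compile,
      length_compile]
    refine ⟨⟨iha k h1, ihb _ h2⟩, Or.inr (Or.inl ⟨rfl, ?_, ?_, ?_⟩)⟩
    · change k + a.size - 1 < _; omega
    · change k + a.size + b.size - 1 < _; omega
    · change f _ = f (k + a.size - 1) ∪ f (k + a.size + b.size - 1)
      rw [e1, e2]; exact e3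
  | it a b iha ihb =>
    intro k h
    rw [vals] at h
    obtain ⟨h12, h3⟩ := Agree_append _ _ _ _ h
    obtain ⟨h1, h2⟩ := Agree_append _ _ _ _ h12
    rw [List.length_append, length_vals, length_vals] at h3
    rw [length_vals] at h2
    have e1 := Agree_last f _ v a h1
    have e2 := Agree_last f _ v b h2
    have e3 := h3 0 _ rfl
    have pa := size_pos a
    have pb := size_pos b
    rw [compile, Sat_append, Sat_append, Sat_singleton, List.length_append, length_compile,
      length_compile]
    refine ⟨⟨iha k h1, ihb _ h2⟩, Or.inr (Or.inr (Or.inl ⟨rfl, ?_, ?_, ?_⟩))⟩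
    · change k + a.size - 1 < _; omega
    · change k + a.size + b.size - 1 < _; omega
    · change f _ = f (k + a.size - 1) ∩ f (k + a.size + b.size - 1)
      rw [e1, e2]; exact e3
  | co a iha =>
    intro k h
    rw [vals] at h
    obtain ⟨h1, h3⟩ := Agree_append _ _ _ _ h
    rw [length_vals] at h3
    have e1 := Agree_last f _ v a h1
    have e3 := h3 0 _ rfl
    have pa := size_pos a
    rw [compile, Sat_append, Sat_singleton, length_compile]
    refine ⟨iha k h1, Or.inr (Or.inr (Or.inr (Or.inl ⟨rfl, ?_, ?_⟩)))⟩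
    · change k + a.size - 1 < _; omega
    · change f _ = (f (k + a.size - 1))ᶜ
      rw [e1]; exact e3
  | ad a b iha ihb =>
    intro k h
    rw [vals] at h
    obtain ⟨h12, h3⟩ := Agree_append _ _ _ _ h
    obtain ⟨h1, h2⟩ := Agree_append _ _ _ _ h12
    rw [List.length_append, length_vals, length_vals] at h3
    rw [length_vals] at h2
    have e1 := Agree_last f _ v a h1
    have e2 := Agree_last f _ v b h2
    have e3 := h3 0 _ rfl
    have pa := size_pos a
    have pb := size_pos b
    rw [compile, Sat_append, Sat_append, Sat_singleton, List.length_append, length_compile,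
      length_compile]
    refine ⟨⟨iha k h1, ihb _ h2⟩, Or.inr (Or.inr (Or.inr (Or.inr (Or.inl ⟨rfl, ?_, ?_, ?_⟩))))⟩
    · change k + a.size - 1 < _; omega
    · change k + a.size + b.size - 1 < _; omega
    · change f _ = {n | ∃ x ∈ f (k + a.size - 1), ∃ y ∈ f (k + a.size + b.size - 1), n = x + y}
      rw [e1, e2]; exact e3
  | mu a b iha ihb =>
    intro k h
    rw [vals] at h
    obtain ⟨h12, h3⟩ := Agree_append _ _ _ _ h
    obtain ⟨h1, h2⟩ := Agree_append _ _ _ _ h12
    rw [List.length_append, length_vals, length_vals] at h3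
    rw [length_vals] at h2
    have e1 := Agree_last f _ v a h1
    have e2 := Agree_last f _ v b h2
    have e3 := h3 0 _ rfl
    have pa := size_pos a
    have pb := size_pos b
    rw [compile, Sat_append, Sat_append, Sat_singleton, List.length_append, length_compile,
      length_compile]
    refine ⟨⟨iha k h1, ihb _ h2⟩, Or.inr (Or.inr (Or.inr (Or.inr (Or.inr ⟨rfl, ?_, ?_, ?_⟩))))⟩
    · change k + a.size - 1 < _; omega
    · change k + a.size + b.size - 1 < _; omega
    · change f _ = {n | ∃ x ∈ f (k + a.size - 1), ∃ y ∈ f (k + a.size + b.size - 1), n = x * y}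
      rw [e1, e2]; exact e3

/-- compiling is computable in the parameter -/
lemma compile_computable (e : Ex) : ∀ k, Computable (fun v => e.compile k v) := by
  have happ : ∀ {f g : ℕ → List (ℕ × ℕ × ℕ)}, Computable f → Computable g →
      Computable (fun v => f v ++ g v) := fun hf hg =>
    (Primrec.list_append.to_comp).comp hf hg
  induction e with
  | lit c => intro k; exact Computable.const _
  | par =>
    intro k
    have : Primrec (fun v : ℕ => ([(0, v, 0)] : List (ℕ × ℕ × ℕ))) :=
      Primrec.list_cons.comp ((Primrec.const 0).pair (Primrec.id.pair (Primrec.const 0)))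
        (Primrec.const [])
    exact this.to_comp
  | un a b iha ihb => intro k; exact happ (happ (iha k) (ihb _)) (Computable.const _)
  | it a b iha ihb => intro k; exact happ (happ (iha k) (ihb _)) (Computable.const _)
  | co a iha => intro k; exact happ (iha k) (Computable.const _)
  | ad a b iha ihb => intro k; exact happ (happ (iha k) (ihb _)) (Computable.const _)
  | mu a b iha ihb => intro k; exact happ (happ (iha k) (ihb _)) (Computable.const _)

end Ex

/-- If membership for circuits is decidable then so is `0 ∈ e.val (lab n)`. -/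
theorem main (e : Ex) (lab : ℕ → ℕ) (hlab : Computable lab)
    (hdec : ComputablePred (fun p : List (ℕ × ℕ × ℕ) × ℕ =>
      p.1 ≠ [] ∧ ∃ f : ℕ → Set ℕ,
        (∀ i o a d : ℕ, p.1[i]? = some (o, a, d) →
          (o = 0 ∧ f i = {a}) ∨
          (o = 1 ∧ a < i ∧ d < i ∧ f i = f a ∪ f d) ∨
          (o = 2 ∧ a < i ∧ d < i ∧ f i = f a ∩ f d) ∨
          (o = 3 ∧ a < i ∧ f i = (f a)ᶜ) ∨
          (o = 4 ∧ a < i ∧ d < i ∧ f i = {n : ℕ | ∃ x ∈ f a, ∃ y ∈ f d, n = x + y}) ∨
          (o = 5 ∧ a < i ∧ d < i ∧ f i = {n : ℕ | ∃ x ∈ f a, ∃ y ∈ f d, n = x * y})) ∧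
        p.2 ∈ f (p.1.length - 1))) :
    ComputablePred (fun n : ℕ => 0 ∈ e.val (lab n)) := by
  refine ComputablePred.computable_of_manyOneReducible
    ⟨fun n => (e.compile 0 (lab n), 0), ?_, ?_⟩ hdec
  · exact ((e.compile_computable 0).comp hlab).pair (Computable.const 0)
  · intro n
    have hS : ∀ f : ℕ → Set ℕ, (∀ i o a d : ℕ, (e.compile 0 (lab n))[i]? = some (o, a, d) →
          (o = 0 ∧ f i = {a}) ∨
          (o = 1 ∧ a < i ∧ d < i ∧ f i = f a ∪ f d) ∨
          (o = 2 ∧ a < i ∧ d < i ∧ f i = f a ∩ f d) ∨
          (o = 3 ∧ a < i ∧ f i = (f a)ᶜ) ∨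
          (o = 4 ∧ a < i ∧ d < i ∧ f i = {n : ℕ | ∃ x ∈ f a, ∃ y ∈ f d, n = x + y}) ∨
          (o = 5 ∧ a < i ∧ d < i ∧ f i = {n : ℕ | ∃ x ∈ f a, ∃ y ∈ f d, n = x * y})) ↔
        Sat f 0 (e.compile 0 (lab n)) := by
      intro f
      constructor
      · intro h i g hg
        rw [zero_add]
        exact h i g.1 g.2.1 g.2.2 hg
      · intro h i o a d hg
        have := h i (o, a, d) hg
        rwa [zero_add] at this
    have hlen := Ex.length_compile e 0 (lab n)
    have hne : e.compile 0 (lab n) ≠ [] := by
      intro h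
      rw [h] at hlen
      have := Ex.size_pos e
      simp at hlen
      omega
    change 0 ∈ e.val (lab n) ↔ (e.compile 0 (lab n) ≠ [] ∧ ∃ f : ℕ → Set ℕ, _ ∧
      0 ∈ f ((e.compile 0 (lab n)).length - 1))
    rw [hlen]
    constructor
    · intro h0
      let f : ℕ → Set ℕ := fun i => (e.vals (lab n)).getD i ∅
      have hag : Ex.Agree f 0 (e.vals (lab n)) := by
        intro i s hi
        rw [zero_add]
        change (e.vals (lab n)).getD i ∅ = s
        rw [List.getD_eq_getElem?_getD, hi]; rfl
      refine ⟨hne, f, (hS f).2 (Ex.sat_of_agree f (lab n) e 0 hag), ?_⟩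
      have := Ex.Agree_last f 0 (lab n) e hag
      rw [zero_add] at this
      rw [this]; exact h0
    · rintro ⟨-, f, h1, h2⟩
      have := Ex.sound f (lab n) e 0 ((hS f).1 h1)
      rw [zero_add] at this
      rw [this] at h2
      exact h2

end Pool.Agent.helper72.MC
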